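import Pool.Agent.W2helper5.TB.Main

/-!
# Abundance for log canonical pairs on toric bundles over quotients of complex tori
-/

set_option autoImplicit false

namespace Pool.Agent.Results.MP_9a2ae6_ag.ToricBundles

open Pool.Agent.W594.SYZ2 Pool.Agent.W594.SYZ2.TQ Pool.Agent.TH735.AQ Pool.Agent.R893.TQ
open Pool.Agent.R800.UA Pool.Agent.R800.UB Pool.Agent.W2helper5.TB

/-- A complete toric bundle `X = (V × X_Σ) / Γ` over a quotient `Y = V / Γ` of a complex torus, and an
effective `ℚ`-divisor `B` on `X` for which `(X, B)` is log canonical (along the toric divisors over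
`X`): the divisor `K_X + B` is nef if and only if it is semiample. -/
theorem result {V : Type*} [NormedAddCommGroup V] [NormedSpace ℂ V] [FiniteDimensional ℂ V]
    {Γ : Subgroup (V ≃ᵃ[ℂ] V)} (hΓ : IsTorusQuotient Γ) {ρ : V → ℂ} (hρ : IsRamification Γ ρ)
    {k : ℕ} {ι : Type*} {r : ι → Fin k → ℤ} {S : Finset (Finset ι)} (hS : IsCompleteFan r S)
    {M : Fin k → WeilClass Γ} (_hmir : TrivialOnMirrors M) {HM : Fin k → V → V → ℂ}
    (hM : ∀ i, (M i).HasChernForm (HM i)) (P : CartierPair r S M ρ) {HN : V → V → ℂ}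
    (hN : P.N.HasChernForm HN) (hLC : P.IsToricLC) :
    P.IsNef HN HM ↔ ∃ j : ℕ, 1 ≤ j ∧ P.BasePointFree j := by
  classical
  constructor
  · intro hnef
    have key : ∀ s : S, ∃ d : ℕ, 1 ≤ d ∧
        Free (twist P.N M (P.u s)) (d * (4 * gl3 (Module.finrank ℂ V) ^ 8)) := by
      rintro ⟨s, hs⟩
      obtain ⟨d, hd, g, hg, hg0, hL⟩ := exists_pluri hS P hLC hnef.fibre hs
      obtain ⟨l, Δ, π, -, h1, h2⟩ := fib_log hΓ rfl (mult_chern (twist_chern hN hM (P.u s)) d) hρ hg
        hg0 hL ((nef_mul hd).2 (hnef.fixed s hs))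
      obtain ⟨h3, h4⟩ := bpf_of_pull h1 h2
      refine ⟨d, hd, fun γ v hγ => ?_, fun v => ?_⟩
      · rw [pow_mul]
        exact h3 γ v hγ
      · obtain ⟨f, ⟨hf1, hf2⟩, hf3⟩ := h4 v
        refine ⟨f, ⟨hf1, fun γ v => ?_⟩, hf3⟩
        rw [pow_mul]
        exact hf2 γ v
    choose d hd hfree using key
    set K := 4 * gl3 (Module.finrank ℂ V) ^ 8 with hK
    have hKpos : 0 < K := Nat.mul_pos (by norm_num) (pow_pos (gl3_pos _) _)
    have hJ : ∀ s : S, Free (twist P.N M (P.u s)) (K * ∏ t : S, d t) := by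
      intro s
      obtain ⟨q, hq⟩ : d s * K ∣ K * ∏ t : S, d t := by
        rw [mul_comm (d s) K]
        exact Nat.mul_dvd_mul_left K (Finset.dvd_prod_of_mem d (Finset.mem_univ s))
      rw [hq]
      refine ⟨fun γ v hγ => ?_, fun v => ?_⟩
      · rw [pow_mul, (hfree s).1 γ v hγ, one_pow]
      · obtain ⟨f, ⟨hf1, hf2⟩, hf3⟩ := (hfree s).2 v
        refine ⟨fun v => f v ^ q, ⟨hf1.pow q, fun γ v => ?_⟩, pow_ne_zero q hf3⟩
        simp only
        rw [hf2, mul_pow, ← pow_mul]
    refine ⟨K * ∏ t : S, d t, Nat.mul_pos hKpos (Finset.prod_pos fun t _ => hd t),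
      fun s hs => (hJ ⟨s, hs⟩).1, fun s hs v x => ?_⟩
    obtain ⟨f, ⟨hf1, hf2⟩, hf3⟩ := (hJ ⟨s, hs⟩).2 v
    set J := K * ∏ t : S, d t with hJdef
    refine ⟨Finsupp.single (J • P.u s) f, ⟨fun χ => ?_, fun χ γ w => ?_, fun χ hχ i => ?_⟩, ?_⟩
    · by_cases h : J • P.u s = χ
      · subst h
        rw [Finsupp.single_eq_same]
        exact hf1
      · rw [Finsupp.single_eq_of_ne (Ne.symm h)]
        exact differentiable_const _
    · by_cases h : J • P.u s = χ
      · subst h
        rw [Finsupp.single_eq_same, hf2]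
        congr 1
        change (P.N.e γ w * ∏ i, (M i).e γ w ^ (-P.u s i)) ^ J = _
        rw [mul_pow, ← Finset.prod_pow]
        congr 1
        refine Finset.prod_congr rfl fun i _ => ?_
        rw [← zpow_natCast, ← zpow_mul]
        congr 1
        simp only [Pi.smul_apply, nsmul_eq_mul]
        ring
      · rw [Finsupp.single_eq_of_ne (Ne.symm h)]
        simp
    · have h1 := Finsupp.support_single_subset hχ
      rw [Finset.mem_singleton] at h1
      rw [h1, dot_nsmul]
      exact mul_le_mul_of_nonneg_left (hnef.fibre s hs i) (Int.natCast_nonneg J)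
    · rw [CartierPair.value, Finsupp.sum_single_index (by simp), sub_self, x.one, mul_one]
      exact hf3
  · rintro ⟨j, hj, -, hfree⟩
    have hj' : (0 : ℤ) < j := by exact_mod_cast hj
    have key : ∀ s ∈ S, ∃ G, P.IsSection j G ∧ ∃ v, G (j • P.u s) v ≠ 0 := by
      intro s hs
      have hall : ∀ χ : Fin k → ℤ, (∀ i ∈ s, dot χ (r i) = 0) ↔ χ = 0 := fun χ =>
        ⟨hS.full s hs χ, fun h i _ => by rw [h]; simp [dot]⟩
      let x : ChartPoint r s :=
        { x := fun χ => if χ = 0 then 1 else 0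
          one := if_pos rfl
          mul := by
            intro χ χ' h h'
            by_cases h1 : χ = 0
            · by_cases h2 : χ' = 0
              · rw [h1, h2]; simp
              · rw [h1]; simp
            · rw [if_neg h1, zero_mul, if_neg]
              intro h3
              apply h1
              refine (hall χ).1 fun i hi => le_antisymm ?_ (h i hi)
              have h4 := (hall (χ + χ')).2 h3 i hi
              rw [dot_add] at h4
              have h5 := h' i hi
              linarith }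
      obtain ⟨G, hG, hv⟩ := hfree s hs 0 x
      refine ⟨G, hG, 0, fun h0 => hv ?_⟩
      rw [CartierPair.value, Finsupp.sum]
      refine Finset.sum_eq_zero fun χ _ => ?_
      change G χ 0 * (if χ - j • P.u s = 0 then 1 else 0) = 0
      by_cases h1 : χ - j • P.u s = 0
      · rw [sub_eq_zero.1 h1, h0, zero_mul]
      · rw [if_neg h1, mul_zero]
    constructor
    · intro s hs i
      obtain ⟨G, hG, v, hv⟩ := key s hs
      have h1 := hG.order (j • P.u s) (by
        rw [Finsupp.mem_support_iff]
        intro h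
        exact hv (by rw [h]; rfl)) i
      rw [dot_nsmul] at h1
      exact le_of_mul_le_mul_left h1 hj'
    · intro s hs
      obtain ⟨G, hG, v, hv⟩ := key s hs
      refine nef_of_eff hΓ (twist_chern hN hM (P.u s)) hj (s := G (j • P.u s))
        ⟨hG.holo _, fun γ w => ?_⟩ ⟨v, hv⟩
      rw [hG.eq]
      congr 1
      change _ = (P.N.e γ w * ∏ i, (M i).e γ w ^ (-P.u s i)) ^ j
      rw [mul_pow, ← Finset.prod_pow]
      congr 1
      refine Finset.prod_congr rfl fun i _ => ?_
      rw [← zpow_natCast, ← zpow_mul]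
      congr 1
      simp only [Pi.smul_apply, nsmul_eq_mul]
      ring

end Pool.Agent.Results.MP_9a2ae6_ag.ToricBundles
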