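import Pool.Agent.W2helper74.LP.Main
import Pool.Agent.W2helper74.CY.Prod

/-!
# Abundance for pairs on quotients `(T × F_1 × ... × F_k) / G`

`T = V / Λ` is a complex torus, which need not be algebraic; the `F_i` are normal projective varieties
with free class groups `Cl(F_i) = ℤ^(ρ' i)`, so that `H^1(F_i, O) = 0`, and `F = F_1 × ... × F_k`, where
`k ≥ 0`. A finite group `G` acts on `T × F` by pairs (automorphism of `T`, automorphism of `F`) and fixes
an ample class of `F`; the action may have fixed points, `T × F → X` may be ramified along divisors in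
both directions, and the `F_i` may be permuted. Let `X = (T × F) / G`, a compact Kähler space. By the
decomposition theorem (Bakker, Guenancia, Lehn) compact Kähler klt spaces with `K_X` numerically trivial
have quasi-étale covers of the form `T × F_1 × ... × F_k` (`F_i` irreducible Calabi-Yau or irreducible
symplectic; here the `F_i` are projective), but there is no condition on the canonical divisors of the
`F_i` here.

Let `B` be any effective divisor with rational coefficients on `X` (the pair `(X, B)` need not be
log canonical), `m B` integral, and `D = m (K_X + B)`.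

**Theorem.** `D` is semiample if and only if the Chern form of `D` in the direction of `T` is semidefinite
and the restrictions of `D` to the `F_i` are semiample. In this case, if the `q`-th multiples of these
restrictions are generated by global sections, then so is `M D`, where
`M = 4 q |GL (2 n, F_3)|^8 |G^|`, `n = dim T`, and `G^` is the finite group of the automorphisms of the
section ring of `F` by which `G` acts.

If `K_X + B` is nef then its Chern form along `T` is semidefinite, and its restrictions to the `F_i` are
nef. So the torus and the group are no obstruction to abundance. Let `(X, B)` be klt and `K_X + B` nef.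
Abundance is known in dimension at most three, and so Q1 holds for `(X, B)` (this deduction is not part
of the formal statement)

* if `dim F ≤ 3`, because the restriction to `F` is the pull-back of the log canonical divisor of a klt
  pair on the quotient of `F` by the automorphisms `φ` with `(1, φ)` in `Γ`;
* if `K_X` is numerically trivial, `T × F → X` is quasi-étale and `dim F_i ≤ 3` for all `i`, because the
  restriction to a general `F_i` is the divisor `K_{F_i} + B_i` of a klt pair.

The dimension of `T`, the number `k` and the dimension of `X` are arbitrary.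

For `k = 0` this is the theorem for torus quotients in the starting files
(`MP_9a2ae6_ag.UniformLogAbundance`).

The proof. The norm of the section `β` which defines `m B`, for the group of the automorphisms of `F`,
evaluated at a point of `F`, gives a meromorphic section of a power of the line bundle on `V / base Γ`
defined by `D`, with poles only on mirrors. By Liouville's theorem the character of the lattice vectors
in the kernel of the Chern form is torsion (`Pool.Agent.R800.UB.root_of_mero`, starting files). So a
bounded power is the pull-back of an ample line bundle on a smaller torus quotient and is generated by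
theta functions (`Pool.Agent.R800.UB.fibration_root`). They are multiplied by norms of sections on `F`.

`IsLogPluri` and `Separated` are defined in `Pool.Agent.W2helper74.LP.Defs`; `IsProjectiveVariety`,
`IsProduct`, `FreeF`, `Generated` and `order` in `Pool.Agent.W2helper74.CY.Defs`; `Cl`, `Grp`, `base`,
`vert`, `Inv`, `IsQuotient`, `Sheaf`, `IsChern`, `SemiampleF` and `IsSemiample` in
`Pool.Agent.X324.CF.Defs`; `gal` in `Pool.Agent.X324.CF.Shf`; `IsRamification` in
`Pool.Agent.TH735.AQ.MirDefs`; `IsNefForm` in `Pool.Agent.W594.SYZ.TQDefs`; `gl3 n` is the order of the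
group `GL (2 n, F_3)`.
-/

set_option autoImplicit false

namespace Pool.Agent.Results.MP_9a2ae6_ag.TorusFactors

open Pool.Agent.W594.SYZ2 Pool.Agent.TH735.AQ Pool.Agent.X324.CF Pool.Agent.W2helper74.CY
  Pool.Agent.W2helper74.LP
open Pool.Agent.R800.UA (gl3)

/-- Let `F` be the product of the varieties `F_i`, `X = (V × F) / Γ` the quotient of `T × F` by a finite
group, and `𝓛 = O_X(m (K_X + B))` with Chern form `H` in the direction of the torus.

1. `𝓛` is semiample if and only if `H` is semidefinite and the restrictions of `𝓛` to the `F_i` are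
   semiample.
2. If `H` is semidefinite and the `q`-th multiples of the restrictions of `𝓛` to the `F_i` are generated by
   global sections, then `𝓛^{[M]}` is generated by global sections, where
   `M = 4 q |GL (2 n, F_3)|^8 |G^|`, `n = dim T`. Here `G^` is the finite group of the automorphisms of the
   section ring of `F` by which `Γ` acts, and `order Γ` is its order. -/
theorem result {V R : Type*} [NormedAddCommGroup V] [NormedSpace ℂ V] [FiniteDimensional ℂ V]
    [CommRing R] [IsDomain R] [Algebra ℂ R] {ρ : ℕ} (𝒜 : Cl ρ → Submodule ℂ R) [GradedAlgebra 𝒜]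
    (u : Cl ρ) (hF : IsProjectiveVariety 𝒜 u) (hsep : Separated 𝒜 u) {K : Type*} [Fintype K]
    {ρ' : K → ℕ} {S : K → Type*} [∀ i, CommRing (S i)] [∀ i, Algebra ℂ (S i)]
    (ℬ : ∀ i, Cl (ρ' i) → Submodule ℂ (S i)) [∀ i, GradedAlgebra (ℬ i)] (t : ∀ i, Cl (ρ' i))
    (e : Cl ρ ≃+ ∀ i, Cl (ρ' i)) (ι : ∀ i, S i →ₐ[ℂ] R) (P : IsProduct 𝒜 u ℬ t e ι) (Γ : Grp V R)
    (hX : IsQuotient 𝒜 u Γ) (𝓛 : Sheaf 𝒜 Γ) (H : V → V → ℂ) (hH : 𝓛.IsChern H) (κ : Cl ρ) (m : ℕ)
    (η : V → ℂ) (β : V → R) (χ : gal Γ →* ℂˣ) (hL : IsLogPluri 𝓛 κ m η β χ) :
    (𝓛.IsSemiample u ↔ IsNefForm H ∧ ∀ i, SemiampleF (ℬ i) (t i) (e 𝓛.deg i)) ∧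
    (IsNefForm H → ∀ q : ℕ, 0 < q → (∀ i, FreeF (ℬ i) (t i) q (e 𝓛.deg i)) →
      Generated u 𝓛 (q * (4 * gl3 (Module.finrank ℂ V) ^ 8 * order Γ))) := by
  have := hX.fin_gal
  have hN : 0 < Nat.card (gal Γ) := Nat.card_pos
  have hg := Pool.Agent.R800.UA.gl3_pos (Module.finrank ℂ V)
  have key : IsNefForm H → ∀ q : ℕ, (∀ i, FreeF (ℬ i) (t i) q (e 𝓛.deg i)) →
      Generated u 𝓛 (q * (4 * gl3 (Module.finrank ℂ V) ^ 8 * order Γ)) := by
    intro hn q hfree
    have h1 := gen_of hX (bpf_log hX hsep rfl hH hn hL) (P.free hfree)
    rwa [mul_comm (Nat.card (gal Γ)) (4 * gl3 (Module.finrank ℂ V) ^ 8)] at h1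
  refine ⟨⟨fun hs => ⟨form_of_semi hF hX hH hs, P.semi_iff.1 (deg_of_semi hs)⟩, ?_⟩,
    fun hn q _ hfree => key hn q hfree⟩
  rintro ⟨hn, hdeg⟩
  choose q hq h1 using hdeg
  have hfree : ∀ i, FreeF (ℬ i) (t i) (∏ j, q j) (e 𝓛.deg i) := fun i =>
    FreeF.mono (Finset.dvd_prod_of_mem q (Finset.mem_univ i)) (h1 i)
  have hqpos : 0 < ∏ j, q j := Finset.prod_pos fun j _ => hq j
  exact semi_of_gen (Nat.mul_pos hqpos (Nat.mul_pos (by positivity) hN)) (key hn _ hfree)

end Pool.Agent.Results.MP_9a2ae6_ag.TorusFactors
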